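import Mathlib
import Pool.Agent.Helper7.Horo.Basic

/-!
# Project HB: boundaries of virtually class 2 nilpotent groups (MP_a47ed5_al)

`G` a group with finite symmetric generating set `S` and a normal subgroup `N` of finite index,
nilpotent of class at most 2, `G` not virtually abelian.  Then the metric-functional boundary of
the word metric of `S` is uncountable.

Plan.  `π : N → ℝ^d` a homomorphism, `B` an alternating form with `B (π x) (π y) = λ [x, y]` for a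
homomorphism `λ` of the commutator subgroup, `ζ (x y) = ζ x + ζ y + B (π x) (π y) / 2` (G_S0 - G_S3).
Short loops of the Cayley graph modulo `N` give a finite symmetric set `PS` of vectors (G_PF, G_SP);
its convex hull has an edge `[u, v]` with `B u v ≠ 0` (G_ED).  Loops in the directions `u`, `v` give
`a, b ∈ N` with `|a^j| = j ℓa + O(1)`, `|b^j| = j ℓb + O(1)`.  Linear functionals extend to
`N`-equivariant functions on `G` with one-sided bounds on all edges (G_PT, G_CR).  The path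
expansion of `ζ` (G_A1) and an isoperimetric inequality (G_A2, G_A3) give
`|b^-R a^n b^n| >= n ℓa + (n - R) ℓb + ε R` (G_LB).  An identity in the Heisenberg group gives the
upper estimate G_JM, and the limits `x_t` of `b_{a^[tn] b^n}` are uncountably many
(G_LM, G_IV, G_UN).
-/

set_option autoImplicit false

open Pool.Agent.Helper7.Horo (len Gen bb)

open scoped commutatorElement

namespace Pool.Agent.Helper26.HB

/-- `ℝ^d` -/
abbrev E (d : ℕ) := Fin d → ℝ

/-- bilinear forms on `ℝ^d` -/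
abbrev Bil (d : ℕ) := E d →ₗ[ℝ] E d →ₗ[ℝ] ℝ

/-- nilpotent of class at most two: commutators are central -/
def Cl2 (N : Type) [Group N] : Prop := ∀ x y z : N, ⁅x, y⁆ * z = z * ⁅x, y⁆

/-- no abelian subgroup of finite index -/
def NVA (N : Type) [Group N] : Prop :=
  ∀ A : Subgroup N, A.FiniteIndex → ∃ x ∈ A, ∃ y ∈ A, x * y ≠ y * x

/-- Heisenberg coordinates of the group `N` -/
structure Dat (N : Type) [Group N] (d : ℕ) (π : N → E d) (B : Bil d) (ζ : N → ℝ) : Prop where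
  hom : ∀ x y, π (x * y) = π x + π y
  alt : ∀ v, B v v = 0
  zeta : ∀ x y, ζ (x * y) = ζ x + ζ y + B (π x) (π y) / 2
  nz : ∃ x y, B (π x) (π y) ≠ 0

/-- the directions of the short loops of the Cayley graph modulo `N` -/
def PS {G : Type} [Group G] (S : Finset G) (N : Subgroup G) (d : ℕ) (π : N → E d) : Set (E d) :=
  {v | ∃ (p : ℕ → G) (j : ℕ) (n : N), 1 ≤ j ∧ j ≤ N.index ∧
    (∀ i < j, (p i)⁻¹ * p (i + 1) ∈ S) ∧ p j = (n : G) * p 0 ∧ v = (1 / (j : ℝ)) • π n}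

/-- first coordinate with respect to `u, v` -/
noncomputable def al {d : ℕ} (B : Bil d) (u v x : E d) : ℝ := B x v / B u v

/-- second coordinate with respect to `u, v` -/
noncomputable def be {d : ℕ} (B : Bil d) (u v x : E d) : ℝ := B u x / B u v

/-- the rest -/
noncomputable def ro {d : ℕ} (B : Bil d) (u v x : E d) : E d :=
  x - al B u v x • u - be B u v x • v

/-- equivariant extensions of the functional `φ` and of the coordinates `al, be, ro`; an edge is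
either short for `f`, or `U, V` and the coordinates of `W` do not decrease along it -/
structure Crit {G : Type} [Group G] (S : Finset G) (N : Subgroup G) {d : ℕ} (π : N → E d)
    (B : Bil d) (u v : E d) (φ : E d →ₗ[ℝ] ℝ) (f U V : G → ℝ) (W : G → E d) (K δ : ℝ) : Prop where
  pos : 0 < δ ∧ 0 ≤ K
  f_eq : ∀ (n : N) (g : G), f (n * g) = φ (π n) + f g
  U_eq : ∀ (n : N) (g : G), U (n * g) = al B u v (π n) + U g
  V_eq : ∀ (n : N) (g : G), V (n * g) = be B u v (π n) + V g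
  W_eq : ∀ (n : N) (g : G), W (n * g) = ro B u v (π n) + W g
  lip : ∀ (g s : G), s ∈ S → f (g * s) ≤ f g + 1
  bU : ∀ (g s : G), s ∈ S → |U (g * s) - U g| ≤ K
  bV : ∀ (g s : G), s ∈ S → |V (g * s) - V g| ≤ K
  bW : ∀ (g s : G), s ∈ S → ∀ i, |W (g * s) i - W g i| ≤ K
  mono : ∀ (g s : G), s ∈ S → f (g * s) ≤ f g + 1 - δ ∨
    (U g ≤ U (g * s) ∧ V g ≤ V (g * s) ∧ ∀ i, W g i ≤ W (g * s) i)

/-! ### the group `N` -/

/-- In a finitely generated group of class at most 2 which is not virtually abelian some commutator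
has infinite order.

Proof.  Suppose every commutator has finite order.  Let `X` be a finite generating set.  In class 2
the map `(x, y) ↦ ⁅x, y⁆` is multiplicative in each variable (`⁅x y, z⁆ = ⁅x, z⁆ ⁅y, z⁆`,
`⁅x, y z⁆ = ⁅x, y⁆ ⁅x, z⁆`, because commutators are central).  For `x ∈ X` the map
`c_x : N → N, y ↦ ⁅x, y⁆` is a homomorphism with values in the centre; its image is generated by the
finitely many commuting elements `⁅x, y⁆, y ∈ X`, of finite order, so the image is finite.  (Or: let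
`e ≥ 1` be a common exponent of the `⁅x, y⁆`, `x, y ∈ X`.  Then `⁅x, y ^ e⁆ = 1` for `x, y ∈ X`, and
the image of `c_x` consists of products of powers with exponents `< e`.)  Hence
`ker c_x = centralizer of x` has finite index, and the centre, the intersection of the
`ker c_x, x ∈ X`, is an abelian subgroup of finite index: contradiction. -/
def G_S0 : Prop := ∀ (N : Type) [Group N], Group.FG N → Cl2 N → NVA N →
  ∃ x y : N, ∀ n : ℕ, 0 < n → ⁅x, y⁆ ^ n ≠ 1

/-- A homomorphism from the commutator subgroup to `ℝ` which does not vanish on a given commutator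
of infinite order.

Proof.  `K = commutator N` is abelian (class 2: it is generated by central elements).  `Additive K`
is an abelian group, `ℝ` is divisible, hence an injective abelian group
(`AddCommGrp.injective_of_divisible`, or Baer's criterion for `ℤ`), so the homomorphism
`ℤ c → ℝ, k c ↦ k` (well defined and injective domain since `c = ⁅x, y⁆` has infinite order) extends
to `λ : K → ℝ`.  Put `lam k = λ k` for `k ∈ K` and `lam k = 0` otherwise. -/
def G_S1 : Prop := ∀ (N : Type) [Group N], Cl2 N →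
  (∃ x y : N, ∀ n : ℕ, 0 < n → ⁅x, y⁆ ^ n ≠ 1) →
  ∃ lam : N → ℝ, (∀ k ∈ commutator N, ∀ k' ∈ commutator N, lam (k * k') = lam k + lam k') ∧
    ∃ x y : N, lam ⁅x, y⁆ ≠ 0

/-- The logarithm of the real Heisenberg group: `ζ (x y) = ζ x + ζ y + λ ⁅x, y⁆ / 2`.

Proof.  Put `β x y = lam ⁅x, y⁆`; in class 2 it is additive in both variables (see G_S0; commutators
and their products are in `commutator N`), `β x x = 0`, `β y x = - β x y`, and `β x y = 0` if
`x ∈ commutator N` (commutators are central).  Let `M = N × ℝ` with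
`(x, r) (y, s) = (x y, r + s - β x y / 2)`: a group (the cocycle is bilinear; inverse
`(x⁻¹, -r)`, since `β x x⁻¹ = 0`).  The commutator of `(x, r)` and `(y, s)` is `(⁅x, y⁆, - β x y)`:
indeed `(x, r)(y, s) = (x y, r + s - β x y / 2)`, `(y, s)(x, r) = (y x, r + s + β x y / 2)`,
`x y = ⁅x, y⁆ y x`, and `(⁅x, y⁆, t)(y x, w) = (x y, t + w)` because `β` vanishes on commutators.
Therefore the commutator subgroup of `M` is contained in `K = {(k, - lam k) : k ∈ commutator N}`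
(a subgroup, normal since it is central: `β k x = 0`, `k` central).  `M / K` is abelian and
`r ↦ (1, r)` induces an injective homomorphism `ℝ → M / K` (`(1, r) ∈ K` forces `r = - lam 1 = 0`).
As `ℝ` is divisible, hence injective, there is a homomorphism `θ : M / K → ℝ` with
`θ (1, r) = r`.  Put `ζ x = θ (x, 0)`.  Then
`ζ x + ζ y = θ ((x, 0)(y, 0)) = θ (x y, - β x y / 2) = θ ((x y, 0) (1, - β x y / 2))
= ζ (x y) - β x y / 2`.
(Any other proof is fine, for instance with a set of representatives of `N / [N, N]` and the fact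
that a symmetric cocycle with values in `ℝ` is a coboundary.) -/
def G_S2 : Prop := ∀ (N : Type) [Group N], Cl2 N → ∀ lam : N → ℝ,
  (∀ k ∈ commutator N, ∀ k' ∈ commutator N, lam (k * k') = lam k + lam k') →
  ∃ ζ : N → ℝ, ∀ x y, ζ (x * y) = ζ x + ζ y + lam ⁅x, y⁆ / 2

/-- A biadditive alternating function on a finitely generated group comes from a bilinear form.

Proof.  Let `H` be the real vector space of all functions `φ : N → ℝ` with
`φ (x y) = φ x + φ y` (a submodule of `N → ℝ`).  Evaluation at a finite generating set is an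
injective linear map from `H` to `ℝ^X`, so `H` is finite-dimensional; let `φ_1, …, φ_d` be a basis
and `π x = (φ_1 x, …, φ_d x)`.  For fixed `y` the function `x ↦ β x y` is in `H`:
`β x y = Σ_i c_i(y) φ_i x` with unique coefficients `c_i(y)`.  Uniqueness and additivity in `y`
show `c_i ∈ H`, so `c_i(y) = Σ_j m_ij φ_j(y)`.  Hence `β x y = Σ_ij m_ij (π x)_i (π y)_j`.
Let `B0 v w = Σ m_ij v_i w_j` and `B v w = (B0 v w - B0 w v) / 2`.  From `β x x = 0` and
biadditivity (`β (x y) (x y) = 0`) one gets `β y x = - β x y`, so `B (π x) (π y) = β x y`. -/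
def G_S3 : Prop := ∀ (N : Type) [Group N], Group.FG N → ∀ β : N → N → ℝ,
  (∀ x y z, β (x * y) z = β x z + β y z) → (∀ x y z, β x (y * z) = β x y + β x z) →
  (∀ x, β x x = 0) →
  ∃ (d : ℕ) (π : N → E d) (B : Bil d), (∀ x y, π (x * y) = π x + π y) ∧ (∀ v, B v v = 0) ∧
    ∀ x y, B (π x) (π y) = β x y

/-! ### geometry of the loops -/

/-- Edges of a symmetric polytope on which an alternating form does not vanish.

Proof.  Generic functionals: for a finite set `D` of non-zero vectors there is a linear functional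
`η` with `η w ≠ 0` for all `w ∈ D` (a real vector space is not a finite union of proper subspaces;
or `η = Σ t^i x_i` for all but finitely many real `t`).
(A) Choose `p, q ∈ P` with `B p q ≠ 0`, and replace `p` by `-p ∈ P` if necessary: `B p q > 0`.
Put `χ x = B x q`.  Let `η` be injective on `P` (non-zero on the non-zero differences).  Let `u ∈ P`
be the lexicographic maximum of `(χ, η)`: `χ u = max χ >= χ p > 0`, and `η w < η u` if `w ∈ P`,
`χ w = χ u`, `w ≠ u`.  For all small `ε > 0` the functional `φ1 = χ + ε η` satisfies `φ1 w < φ1 u`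
for `w ∈ P, w ≠ u`.
(B) Put `ψ x = B u x`; `ψ u = 0`, `ψ q = χ u > 0`.  Let `D` be the set of the non-zero vectors among
`(ψ w') • (w - u) - (ψ w) • (w' - u)`, `w, w' ∈ P`, and `η'` with `η' ≠ 0` on `D`.  For all small
`ε' > 0` except finitely many (for `z ∈ D` at most one `ε'` has `φ1 z + ε' η' z = 0`) the functional
`φ0 = φ1 + ε' η'` has `φ0 w < φ0 u` for `w ∈ P, w ≠ u`, and `φ0 z ≠ 0` for `z ∈ D`.
(C) `P+ = {w ∈ P : ψ w > 0}` contains `q`.  For `w ∈ P+` let `r w = (φ0 u - φ0 w) / ψ w > 0`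
(`w ≠ u` as `ψ u = 0`), `s` the minimum of `r` on `P+`, `φs = φ0 + s ψ`.  Then `φs u = φ0 u`; for
`w ∈ P+`: `φs w = φ0 w + s ψ w <= φ0 u` with equality iff `r w = s`; for `w ∈ P` with `ψ w <= 0`:
`φs w <= φ0 w <= φ0 u` with equality only if `w = u`.
Let `T = {w ∈ P+ : r w = s}`, non-empty, and `v ∈ T` with `ψ v` maximal.  For `w ∈ T`:
`φ0 (u - w) ψ v = s ψ w ψ v = φ0 (u - v) ψ w`, so `φ0` vanishes on
`(ψ v) • (w - u) - (ψ w) • (v - u)`, hence this vector is `0` and `w = u + (ψ w / ψ v) • (v - u)`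
with `0 < ψ w / ψ v <= 1`.  Finally `m = φ0 u > 0`: `-u ∈ P`, `-u ≠ u` (as `χ u ≠ 0`), so
`- φ0 u < φ0 u`.  Take `φ = m⁻¹ φs`.  `B u v = ψ v > 0`. -/
def G_ED : Prop := ∀ (d : ℕ) (P : Set (E d)) (B : Bil d), P.Finite → (∀ w ∈ P, -w ∈ P) →
  (∀ w, B w w = 0) → (∃ p ∈ P, ∃ q ∈ P, B p q ≠ 0) →
  ∃ u ∈ P, ∃ v ∈ P, ∃ φ : E d →ₗ[ℝ] ℝ, φ u = 1 ∧ φ v = 1 ∧ B u v ≠ 0 ∧ (∀ w ∈ P, φ w ≤ 1) ∧
    ∀ w ∈ P, φ w = 1 → ∃ s : ℝ, 0 ≤ s ∧ s ≤ 1 ∧ w = u + s • (v - u)

/-- Potentials: a homomorphism with one-sided bounds on all short loops of an `N`-invariant set of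
edges `Q` extends to an equivariant function with one-sided bounds on all edges.

Proof.  Let `k = N.index`, `T` a finite transversal: every `g` is uniquely `ν g * τ g` with
`ν g ∈ N`, `τ g ∈ T`; `ν (n g) = n ν g`.  A path of length `M` is `p : ℕ → G` with
`Q (p i) (p (i+1))` for `i < M`.
Claim: there is `C` with `ℓ (ν (p M)) - ℓ (ν (p 0)) <= c M + C` for all paths.  Strong induction on
`M`.  If `M < k` then, by invariance (multiply the path by `(ν (p 0))⁻¹` from the left), we may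
assume `p 0 ∈ T`; there are finitely many `p 0` and finitely many sequences of letters
`(p i)⁻¹ p (i+1) ∈ S`, `i < M`, so the left side takes finitely many values (it depends only on the
restriction of `p` to `i <= M`) and `C` can be chosen (with `C >= |c| k`-terms, any bound).
If `M >= k`, two of the `k + 1` points `p 0, …, p k` lie in the same coset of `N`:
`p j = n (p i)` with `n ∈ N`, `i < j <= k` (left and right cosets agree).  The path
`i' ↦ p (i + i')` of length `j - i` shows `ℓ n <= c (j - i)`.  The sequence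
`p' i' = p i'` for `i' <= i`, `p' i' = n⁻¹ p (i' + (j - i))` for `i' > i`, is a path of length
`M - (j - i)` (at `i`: `n⁻¹ p j = p i`) from `p 0` to `n⁻¹ p M` (also correct if `i = M - (j - i)`).
By induction `ℓ (n⁻¹ ν (p M)) - ℓ (ν (p 0)) <= c (M - (j - i)) + C`; add `ℓ n <= c (j - i)`.
Define `L g` as the infimum of `ℓ (ν (p 0)) + c M` over all `M` and all paths of length `M` with
`p M = g`.  The set is non-empty (`M = 0`) and bounded below by `ℓ (ν g) - C`.  It is invariant: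
`p ↦ n p` is a bijection between paths ending at `g` and at `n g` and changes the value by `ℓ n`; so
`L (n g) = ℓ n + L g`.  If `Q g g'`, paths to `g` can be prolonged: `L g' <= L g + c`. -/
def G_PT : Prop := ∀ (G : Type) [Group G] (S : Finset G) (N : Subgroup G) [N.Normal]
  [N.FiniteIndex] (Q : G → G → Prop) (ℓ : N → ℝ) (c : ℝ),
  (∀ x y, ℓ (x * y) = ℓ x + ℓ y) → (∀ g g', Q g g' → g⁻¹ * g' ∈ S) →
  (∀ (n : N) (g g' : G), Q g g' → Q (n * g) (n * g')) →
  (∀ (p : ℕ → G) (j : ℕ), 1 ≤ j → j ≤ N.index → (∀ i < j, Q (p i) (p (i + 1))) →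
    ∀ n : N, p j = n * p 0 → ℓ n ≤ c * j) →
  ∃ L : G → ℝ, (∀ (n : N) (g : G), L (n * g) = ℓ n + L g) ∧ ∀ g g', Q g g' → L g' ≤ L g + c

/-- The set of directions of short loops is finite and symmetric.

Proof.  Let `T` be a finite transversal of `N`, `p 0 = m t` with `m ∈ N`, `t ∈ T`, and let `w` be the
product of the letters `(p i)⁻¹ p (i+1)`, `i < j`, so `p j = p 0 w`, `n = p 0 w (p 0)⁻¹
= m (t w t⁻¹) m⁻¹` with `t w t⁻¹ ∈ N` (normality) and `π n = π (t w t⁻¹)` (the homomorphism `π` is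
invariant under conjugation by `m ∈ N`).  There are finitely many `t`, `j <= N.index` and products
`w` of `j` elements of `S`.  Symmetry: the reversed path `i ↦ p (j - i)` has letters in `S` because
`S` is symmetric, and goes from `p j` to `p 0 = n⁻¹ p j`; `π n⁻¹ = - π n`. -/
def G_PF : Prop := ∀ (G : Type) [Group G] (S : Finset G), Gen S → ∀ (N : Subgroup G) [N.Normal]
  [N.FiniteIndex] (d : ℕ) (π : N → E d), (∀ x y, π (x * y) = π x + π y) →
  (PS S N d π).Finite ∧ ∀ w ∈ PS S N d π, -w ∈ PS S N d π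

/-- A linear functional vanishing on `PS` vanishes on `π N`.

Proof.  Apply the potentials with `Q g g' := g⁻¹ g' ∈ S`, `ℓ = χ ∘ π`, `c = 0`: for a path of length
`j <= N.index` with `p j = n p 0` the vector `(1/j) π n` is in `PS`, so `ℓ n = 0 <= 0 * j`.  We get
`L` with `L (n g) = ℓ n + L g` and `L (g s) <= L g` for `s ∈ S`.  As `S` is symmetric,
`L (g s) = L g` for all `g`, `s ∈ S`, and as `S` generates, `L` is constant.  Hence
`ℓ n = L (n * 1) - L 1 = 0`. -/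
def G_SP : Prop := G_PT → ∀ (G : Type) [Group G] (S : Finset G), Gen S → ∀ (N : Subgroup G)
  [N.Normal] [N.FiniteIndex] (d : ℕ) (π : N → E d), (∀ x y, π (x * y) = π x + π y) →
  ∀ χ : E d →ₗ[ℝ] ℝ, (∀ w ∈ PS S N d π, χ w = 0) → ∀ n, χ (π n) = 0

/-- Equivariant extensions for an edge of the polytope.

Proof.  `f`: potentials (`G_PT`) with `Q g g' := g⁻¹ g' ∈ S`, `ℓ = φ ∘ π`, `c = 1`: a loop of length
`j` with `p j = n p 0` gives `(1/j) π n ∈ PS`, so `φ (π n) <= j`.  So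
`f (n g) = φ (π n) + f g` and `f (g s) <= f g + 1` for `s ∈ S`.
Critical edges: `Q g g' := g⁻¹ g' ∈ S ∧ f g' = f g + 1`, an `N`-invariant relation.  Let `p` be a
path of critical edges of length `j`, `1 <= j <= N.index`, `p j = n p 0`.  Then
`f (p 0) + j = f (p j) = φ (π n) + f (p 0)`, so `φ (π n) = j` and `w = (1/j) π n ∈ PS` has
`φ w = 1`: `w = u + s (v - u)`, `0 <= s <= 1`.  By `B v v = 0 = B u u`: `al w = B w v / B u v = 1 - s`,
`be w = B u w / B u v = s`, `ro w = 0`; so `al (π n) = j (1 - s) >= 0`, `be (π n) >= 0`,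
`ro (π n) = 0` (`al, be, ro` are linear in the last argument).
Apply `G_PT` with the critical edges, `c = 0`, and `ℓ = - al ∘ π`, `- be ∘ π`, `- (ro ∘ π)_i`
(`i < d`), and take the negatives of the potentials: `U, V, W_i`.  They are equivariant and do not
decrease along critical edges.
`K`: for `s ∈ S` the number `U (g s) - U g` depends only on `s` and the coset of `g` modulo `N`
(equivariance), so it takes finitely many values; the same for `V`, `W_i`.
`δ`: the numbers `f g + 1 - f (g s) >= 0` take finitely many values; let `δ > 0` be smaller than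
or equal to the positive ones (`δ = 1` if there are none).  If the number is `0` the edge is
critical. -/
def G_CR : Prop := G_PT → ∀ (G : Type) [Group G] (S : Finset G), Gen S → ∀ (N : Subgroup G)
  [N.Normal] [N.FiniteIndex] (d : ℕ) (π : N → E d) (B : Bil d) (u v : E d) (φ : E d →ₗ[ℝ] ℝ),
  (∀ x y, π (x * y) = π x + π y) → (∀ w, B w w = 0) → φ u = 1 → φ v = 1 → B u v ≠ 0 →
  (∀ w ∈ PS S N d π, φ w ≤ 1) →
  (∀ w ∈ PS S N d π, φ w = 1 → ∃ s : ℝ, 0 ≤ s ∧ s ≤ 1 ∧ w = u + s • (v - u)) →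
  ∃ (f U V : G → ℝ) (W : G → E d) (K δ : ℝ), Crit S N π B u v φ f U V W K δ

/-! ### the area -/

/-- The path expansion of `ζ`.

Proof.  `T`, `ν`, `τ` as in `G_PT`, with `1 ∈ T` (`ν 1 = 1`).  `D g = F g - π (ν g) = F (τ g)` takes
finitely many values (equivariance `F (n g) = π n + F g`).  For a path put `ν_j = ν (p j)`,
`F_j = F (p j)`, `D_j = D (p j)`, `c_j = ν_j⁻¹ ν_(j+1) ∈ N`.  From `p (j+1) = p j s`, `s ∈ S`, we get
`c_j = τ (p j) s τ (p (j+1))⁻¹`, an element of a fixed finite set.  `ζ ν_(j+1) = ζ ν_j + ζ c_j +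
B (π ν_j) (π c_j) / 2`, `ζ 1 = 0`, so, as `p M = g ∈ N` has `ν_M * τ_M = g`; here `τ_M ∈ N ∩ T = {1}`
(one coset), so `ν_M = g`:
`ζ g = Σ_j ζ c_j + (1/2) Σ_j B (π ν_j) (π ν_(j+1) - π ν_j)`.
The first sum is `O(M)`.  Insert `π ν_j = F_j - D_j`:
`B (π ν_j) (π ν_(j+1) - π ν_j) = B (F_j - F 1) (F_(j+1) - F_j) + B (F 1 - D_j) (F_(j+1) - F_j)
- B (π ν_j) (D_(j+1) - D_j)`.
The middle term is bounded (`F_(j+1) - F_j = π c_j + D_(j+1) - D_j` is bounded).  Summation by
parts: `Σ_j B (π ν_j) (D_(j+1) - D_j) = B (π ν_M) D_M - B (π ν_0) D_0 - Σ_j B (π c_j) D_(j+1)`,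
`π ν_0 = 0`, `π ν_M = Σ π c_j = O(M)`, so this sum is `O(M)` as well.  (For `M = 0`, `g = 1` and
both sides vanish.)  Continuity of `B`: `|B x y| <= C ‖x‖ ‖y‖`. -/
def G_A1 : Prop := ∀ (G : Type) [Group G] (S : Finset G) (N : Subgroup G) [N.Normal]
  [N.FiniteIndex] (d : ℕ) (π : N → E d) (B : Bil d) (ζ : N → ℝ), Dat N d π B ζ →
  ∀ F : G → E d, (∀ (n : N) (g : G), F (n * g) = π n + F g) →
  ∃ C : ℝ, ∀ (p : ℕ → G) (M : ℕ) (g : N), p 0 = 1 → (∀ i < M, (p i)⁻¹ * p (i + 1) ∈ S) →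
    p M = (g : G) →
    |ζ g - (1 / 2) * ∑ j ∈ Finset.range M, B (F (p j) - F 1) (F (p (j + 1)) - F (p j))| ≤ C * M

/-- The isoperimetric inequality for sequences which are monotone up to few steps.

Proof.  Let `A_j = U j - U 0`, `B_j = V j - V 0`, `ΔA_j = A_(j+1) - A_j`, and `b = Bad.card`.  From
`A_(j+1) B_(j+1) - A_j B_j = A_j ΔB_j + B_j ΔA_j + ΔA_j ΔB_j` the sum in question is
`A_M B_M - 2 Σ B_j ΔA_j - Σ ΔA_j ΔB_j`.  `B_j` decreases only at bad steps and by at most `K` each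
time, so `B_j >= - K b`; also `|B_j| <= K M`.  For `j` not bad, `0 <= ΔA_j <= K`, so
`B_j ΔA_j >= - K^2 b`; for `j` bad `B_j ΔA_j >= - K^2 M`.  Hence `Σ B_j ΔA_j >= - 2 K^2 M b`.
`ΔA_j ΔB_j >= 0` for `j` not bad and `>= - K^2` for `j` bad, and if there is a bad `j` then
`M >= 1`.  Total: `<= A_M B_M + 5 K^2 M b`. -/
def G_A2 : Prop := ∀ (M : ℕ) (U V : ℕ → ℝ) (K : ℝ) (Bad : Finset ℕ), 0 ≤ K →
  Bad ⊆ Finset.range M →
  (∀ j < M, |U (j + 1) - U j| ≤ K ∧ |V (j + 1) - V j| ≤ K) →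
  (∀ j < M, j ∉ Bad → U j ≤ U (j + 1) ∧ V j ≤ V (j + 1)) →
  ∑ j ∈ Finset.range M, ((U j - U 0) * (V (j + 1) - V j) - (V j - V 0) * (U (j + 1) - U j))
    ≤ (U M - U 0) * (V M - V 0) + 6 * K ^ 2 * M * Bad.card

/-- The part transversal to the edge.  A bilinear form on a sequence in `ℝ^d` whose coordinates are
monotone up to few steps and which returns to its starting point.

Proof.  For each coordinate `i`: `Σ_j (W (j+1) i - W j i) = 0`, the good steps are `>= 0` and the bad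
ones `>= - K`, so the sum of the good steps is at most `K b` and
`Σ_j |W (j+1) i - W j i| <= 2 K b`, `b = Bad.card`.  With the sup norm on `ℝ^d`,
`‖W (j+1) - W j‖ <= Σ_i |W (j+1) i - W j i|`, so `Σ_j ‖W (j+1) - W j‖ <= 2 d K b`, and also
`‖W j - W 0‖ <= 2 d K b`.  `R : ℝ^d → ℝ^d` linear and `B` bilinear: there is `C0` with
`|B (R x) (R y)| <= C0 ‖x‖ ‖y‖`.  The sum is at most `C0 (2 d K b)^2`.  `C = 4 C0 d^2`. -/
def G_A3 : Prop := ∀ (d : ℕ) (B : Bil d) (R : E d →ₗ[ℝ] E d), ∃ C : ℝ,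
  ∀ (M : ℕ) (W : ℕ → E d) (K : ℝ) (Bad : Finset ℕ), 0 ≤ K → Bad ⊆ Finset.range M →
  (∀ j < M, ∀ i, |W (j + 1) i - W j i| ≤ K) → (∀ j < M, j ∉ Bad → ∀ i, W j i ≤ W (j + 1) i) →
  W M = W 0 →
  ∑ j ∈ Finset.range M, B (R (W j - W 0)) (R (W (j + 1) - W j)) ≤ C * (K * Bad.card) ^ 2

/-- The lower bound.

Proof.  Put `F g = U g • u + V g • v + ro (W g)`.  `ro` is linear and idempotent
(`al u = 1`, `al v = 0`, `be u = 0`, `be v = 1`, so `ro u = ro v = 0`), hence
`F (n g) = al (π n) • u + be (π n) • v + ro (π n) + F g = π n + F g`.  Also `B u (ro x) = 0 =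
B v (ro x)` (and `B (ro x) u = 0 = B (ro x) v` by antisymmetry), so with `κ = B u v > 0` and a
path `p`, writing `U_j = U (p j)` etc., `R = ro`:
`B (F_j - F_0) (F_(j+1) - F_j) = κ ((U_j - U_0)(V_(j+1) - V_j) - (V_j - V_0)(U_(j+1) - U_j))
+ B (R (W_j - W_0)) (R (W_(j+1) - W_j))`.
Let `g = b⁻¹^R a^n b^n ∈ N`, `M = len S g`, `p` a geodesic path from `1` to `g` (partial products of
a word of length `M`).  `π g = n ℓa u + (n - R) ℓb v`; so `U_M - U_0 = n ℓa`,
`V_M - V_0 = (n - R) ℓb`, `W_M - W_0 = ro (π g) = 0`, `f (g) - f 1 = n ℓa + (n - R) ℓb =: m0`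
(by equivariance, `g = g * 1`).
Suppose `M < m0 + ε R`.  Let `Bad` be the set of the steps `j < M` with
`f (p (j+1)) <= f (p j) + 1 - δ`.  Then `m0 = Σ (f_(j+1) - f_j) <= M - δ |Bad|`, so
`δ |Bad| <= ε R`.  At the other steps `U, V, W_i` do not decrease.
`G_A1`: `ζ g <= (1/2) Σ_j B (F_j - F_0)(F_(j+1) - F_j) + C M`; `G_A2` and `G_A3`:
`ζ g <= (κ/2)(n ℓa (n - R) ℓb + 6 K^2 M |Bad|) + C' (K |Bad|)^2 / 2 + C M`.
On the other side, by `Dat` (`ζ (x^k) = k ζ x`, `ζ x⁻¹ = - ζ x`, `ζ (x y) = …`):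
`ζ g = (n - R) ζ b + n ζ a + (1/2)(B (π b⁻¹^R) (π a^n) + B (π b⁻¹^R) (π b^n) + B (π a^n) (π b^n))
= (n - R) ζ b + n ζ a + (κ/2) ℓa ℓb (R n + n^2)`.
Therefore `κ ℓa ℓb n R <= C1 n + 3 κ K^2 M |Bad| + C' K^2 |Bad|^2 / 2 + C M` for `n >= R`, where
`C1 = 2 (|ζ a| + |ζ b|)`.  `M <= R len b + n ℓa + n ℓb + 2 C'' <= C3 n` (`n >= R`, `n >= 1`).  With
`|Bad| <= ε R / δ`:
`κ ℓa ℓb n R <= (C1 + C C3) n + 3 κ K^2 C3 n ε R / δ + C4 R^2` with `C4` depending on `ε` but not on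
`n, R`.  Choose `ε > 0` with `3 κ K^2 C3 ε / δ <= κ ℓa ℓb / 2`; for `n >= C4 R^2` the last term is
`<= 1 <= n`, and we get `(κ ℓa ℓb / 2) R <= C1 + C C3 + 1`, which is false for `R >= R0`. -/
def G_LB : Prop := G_A1 → G_A2 → G_A3 → ∀ (G : Type) [Group G] (S : Finset G), Gen S →
  ∀ (N : Subgroup G) [N.Normal] [N.FiniteIndex] (d : ℕ) (π : N → E d) (B : Bil d) (ζ : N → ℝ)
  (u v : E d) (φ : E d →ₗ[ℝ] ℝ) (f U V : G → ℝ) (W : G → E d) (K δ : ℝ) (a b : N) (ℓa ℓb : ℕ)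
  (C : ℝ),
  Dat N d π B ζ → φ u = 1 → φ v = 1 → 0 < B u v → Crit S N π B u v φ f U V W K δ →
  1 ≤ ℓa → 1 ≤ ℓb → π a = (ℓa : ℝ) • u → π b = (ℓb : ℝ) • v →
  (∀ j : ℕ, (len S ((a : G) ^ j) : ℝ) ≤ j * ℓa + C) →
  (∀ j : ℕ, (len S ((b : G) ^ j) : ℝ) ≤ j * ℓb + C) →
  ∃ ε : ℝ, 0 < ε ∧ ∃ R0 : ℕ, ∀ R : ℕ, R0 ≤ R → ∃ n0 : ℕ, ∀ n : ℕ, n0 ≤ n →
    (n : ℝ) * ℓa + ((n : ℝ) - R) * ℓb + ε * R
      ≤ len S ((b : G)⁻¹ ^ R * (a : G) ^ n * (b : G) ^ n)

/-! ### the family of limits -/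

/-- No upward jumps: the identity.

Proof.  Let `c = ⁅a, b⁆ = a b a⁻¹ b⁻¹`, which commutes with `a` and `b`; `a b = c b a`.  Hence for
integers `i, j`: `b^j a^i = a^i b^j c^(-i j)`.  Put `g_m = b^(-R) a^m b^n = a^m b^(n-R) c^(R m)`.
Let `x = ⌊R δ / (n - R)⌋`, `r = R δ - x (n - R)` (`0 <= r < n - R`), `q = ⌊r / δ⌋`,
`r' = r - q δ < δ`.  Then
`g_(m+δ) = (b^(-(q+1)) a^(r') b a^(δ - r') b^q) a^x g_m a^(-x)`,
because `a^x g_m a^(-x) = a^m b^(n-R) c^(R m + x (n-R))`, the bracket is `a^δ c^(q δ + r')`, and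
`g_(m+δ) = a^(m+δ) b^(n-R) c^(R m + R δ)`, `R δ = x (n - R) + q δ + r'`.  Therefore
`len g_(m+δ) <= len g_m + (2 q + 2) len b + len a^(r') + len a^(δ - r') + 2 x len a
<= len g_m + δ ℓa + 2 C + (2 q + 2) len b + 2 x len a`, with `x <= R δ / (n - R)` and
`q <= (n - R) / δ`.  Take `C' = 2 len a + 2 len b + 2 |C| + 2`.  (Only powers of `a`, `b` with natural
exponents and `len (x⁻¹) = len x`, `len (x y) <= len x + len y` are used.) -/
def G_JM : Prop := ∀ (G : Type) [Group G] (S : Finset G), Gen S → ∀ (a b : G) (ℓa : ℕ) (C : ℝ),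
  ⁅a, b⁆ * a = a * ⁅a, b⁆ → ⁅a, b⁆ * b = b * ⁅a, b⁆ →
  (∀ j : ℕ, (len S (a ^ j) : ℝ) ≤ j * ℓa + C) →
  ∃ C' : ℝ, 0 ≤ C' ∧ ∀ R m δ n : ℕ, R < n → 1 ≤ δ →
    (len S (b⁻¹ ^ R * a ^ (m + δ) * b ^ n) : ℝ) ≤ len S (b⁻¹ ^ R * a ^ m * b ^ n) + δ * ℓa
      + C' * ((R : ℝ) * δ / ((n : ℝ) - R) + ((n : ℝ) - R) / δ + 1)

/-- The limits `x_t` of `b_(a^[t n] b^n)`, `t ∈ [0, 1]`.

Proof.  Let `𝒰` be a non-principal ultrafilter on `ℕ` (`Filter.hyperfilter ℕ`).  For
`t ∈ [0, 1]` let `w_(t,n) = a^(⌊t n⌋₊) b^n`, and let `X t` be the limit along `𝒰` of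
`bb S w_(t,n)` (pointwise: `|bb S w z| <= len z`, so the limit exists by compactness; or use
`closure_compact`).  `X t` is in the closure of the range of `bb S`.  It is not in the range:
`len w_(t,n) -> ∞` by the lower bound (`ℓb >= 1`), so for each `r` and all large `n` some `k` with
`len k = r` has `bb S w_(t,n) k = -r` (`exists_down`); the ball is finite, so one such `k` serves for
`𝒰`-almost all `n`, and `X t k = -r`; but `bb S x0 k >= - len x0` for all `k` (`bb_ge'`).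
Note `bb S w (b^R) = len (b^(-R) w) - len w`.
(0) `|X t (b^R)| <= len (b^R) <= R ℓb + C`; also `<= C1 (R + 1)`.
(1) `t = 0`: `len (b^(-R) b^n) - len (b^n) <= (n - R) ℓb + C - n ℓb` for `n >= R`.
(2) `t = 1`: for `R >= R0` and `n >= n0`, `len (b^(-R) a^n b^n) - len (a^n b^n)
>= n ℓa + (n - R) ℓb + ε R - (n ℓa + n ℓb + 2 C)`.
(3) `0 <= t < t' <= 1`: `m = ⌊t n⌋₊`, `m + δ = ⌊t' n⌋₊`, `δ >= 1` for large `n`,
`δ / n -> t' - t`.  From the jump estimate and `len w_(t',n) >= (m + δ) ℓa + n ℓb`,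
`len w_(t,n) <= m ℓa + n ℓb + 2 C`:
`bb S w_(t',n) (b^R) <= bb S w_(t,n) (b^R) + 2 C + C' (R δ / (n - R) + (n - R) / δ + 1)`, and the
bracket tends to `R (t' - t) + 1 / (t' - t) + 1`.  So the limit satisfies the same inequality with
`D = 2 C + C' (1 / (t' - t) + 1)`. -/
def G_LM : Prop := ∀ (G : Type) [Group G] (S : Finset G), Gen S → ∀ (a b : G) (ℓa ℓb : ℕ)
  (C C' ε : ℝ) (R0 : ℕ), 0 ≤ C → 0 ≤ C' → 1 ≤ ℓb →
  (∀ j : ℕ, (len S (a ^ j) : ℝ) ≤ j * ℓa + C) → (∀ j : ℕ, (len S (b ^ j) : ℝ) ≤ j * ℓb + C) →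
  (∀ m n : ℕ, (m : ℝ) * ℓa + n * ℓb ≤ len S (a ^ m * b ^ n)) →
  (∀ R m δ n : ℕ, R < n → 1 ≤ δ →
    (len S (b⁻¹ ^ R * a ^ (m + δ) * b ^ n) : ℝ) ≤ len S (b⁻¹ ^ R * a ^ m * b ^ n) + δ * ℓa
      + C' * ((R : ℝ) * δ / ((n : ℝ) - R) + ((n : ℝ) - R) / δ + 1)) →
  (∀ R : ℕ, R0 ≤ R → ∃ n0 : ℕ, ∀ n : ℕ, n0 ≤ n →
    (n : ℝ) * ℓa + ((n : ℝ) - R) * ℓb + ε * R ≤ len S (b⁻¹ ^ R * a ^ n * b ^ n)) →
  ∃ (X : ℝ → G → ℝ) (C1 : ℝ),
    (∀ t ∈ Set.Icc (0 : ℝ) 1, X t ∈ closure (Set.range (bb S)) \ Set.range (bb S)) ∧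
    (∀ t ∈ Set.Icc (0 : ℝ) 1, ∀ R : ℕ, |X t (b ^ R)| ≤ C1 * (R + 1)) ∧
    (∀ R : ℕ, X 0 (b ^ R) ≤ - (R : ℝ) * ℓb + C1) ∧
    (∀ R : ℕ, R0 ≤ R → - (R : ℝ) * ℓb + ε * R - C1 ≤ X 1 (b ^ R)) ∧
    ∀ t t' : ℝ, 0 ≤ t → t < t' → t' ≤ 1 → ∃ D : ℝ, ∀ R : ℕ,
      X t' (b ^ R) ≤ X t (b ^ R) + C1 * (t' - t) * R + D

/-- A function without upward jumps takes all intermediate values.

Proof.  Let `0 < w < ε`.  Let `A = {t ∈ [0,1] : w < s t}`, which contains `1`, and `T = inf A`.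
First `s T <= w`: if `T = 0` this is `s 0 <= 0`; otherwise all `t` with `0 <= t < T` have
`s t <= w`, and `s T <= s t + C (T - t) <= w + C (T - t)`, let `t -> T`.  So `T ∉ A` and there are
`t ∈ A`, `t > T`, `t -> T`: `w < s t <= s T + C (t - T)`, so `w <= s T`.  Hence `s T = w`, the image
of `[0, 1]` contains the interval `(0, ε)`, which is not countable.  (`C` may be replaced by
`max C 0`.) -/
def G_IV : Prop := ∀ (s : ℝ → ℝ) (C ε : ℝ), 0 < ε → s 0 ≤ 0 → ε ≤ s 1 →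
  (∀ t t' : ℝ, 0 ≤ t → t < t' → t' ≤ 1 → s t' ≤ s t + C * (t' - t)) →
  ¬ (s '' Set.Icc (0 : ℝ) 1).Countable

/-- Uncountably many limits.

Proof.  For a function `x` on `G` with `|x (b^R)| <= C1 (R + 1)` let `S(x)` be the limit along a
non-principal ultrafilter (`Filter.hyperfilter ℕ`) of the bounded sequence
`(x (b^R) + R ℓb) / R`, `R -> ∞`.  Put `s t = S (X t)`.  The hypotheses give `s 0 <= 0`,
`s 1 >= ε`, and `s t' <= s t + C1 (t' - t)` for `0 <= t < t' <= 1` (the constants `C1`, `D` divided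
by `R` tend to `0`).  By `G_IV` the image of `[0, 1]` under `s` is not countable.  It is the image
under the map `S` of a subset of `Y`, so `Y` is not countable. -/
def G_UN : Prop := G_IV → ∀ (G : Type) [Group G] (Y : Set (G → ℝ)) (b : G) (ℓb : ℕ) (ε C1 : ℝ)
  (R0 : ℕ) (X : ℝ → G → ℝ), 0 < ε → (∀ t ∈ Set.Icc (0 : ℝ) 1, X t ∈ Y) →
  (∀ t ∈ Set.Icc (0 : ℝ) 1, ∀ R : ℕ, |X t (b ^ R)| ≤ C1 * (R + 1)) →
  (∀ R : ℕ, X 0 (b ^ R) ≤ - (R : ℝ) * ℓb + C1) →
  (∀ R : ℕ, R0 ≤ R → - (R : ℝ) * ℓb + ε * R - C1 ≤ X 1 (b ^ R)) →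
  (∀ t t' : ℝ, 0 ≤ t → t < t' → t' ≤ 1 → ∃ D : ℝ, ∀ R : ℕ,
      X t' (b ^ R) ≤ X t (b ^ R) + C1 * (t' - t) * R + D) →
  ¬ Y.Countable

end Pool.Agent.Helper26.HB
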