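import Pool.Agent.Helper26.HB.Goals

set_option autoImplicit false

namespace Pool.Agent.Helper26.HB

/-- a bound of a bilinear form by the sums of the absolute values of the coordinates -/
theorem bil_bound (d : ℕ) (Q : Bil d) (x y : E d) :
    |Q x y| ≤ (∑ i, ∑ j, |Q (Pi.single i 1) (Pi.single j 1)|) * ((∑ i, |x i|) * ∑ i, |y i|) := by
  have hx : x = ∑ i, x i • (Pi.single i 1 : E d) := by
    funext k
    simp [Finset.sum_apply, Pi.single_apply]
  have hy : y = ∑ i, y i • (Pi.single i 1 : E d) := by
    funext k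
    simp [Finset.sum_apply, Pi.single_apply]
  have e : Q x y = ∑ i, ∑ j, x i * (y j * Q (Pi.single i 1) (Pi.single j 1)) := by
    conv_lhs => rw [hx, hy]
    simp only [map_sum, map_smul, LinearMap.sum_apply, LinearMap.smul_apply, smul_eq_mul]
    rw [Finset.sum_comm]
    refine Finset.sum_congr rfl fun i _ => ?_
    rw [Finset.mul_sum]
    exact Finset.sum_congr rfl fun _ _ => by ring
  rw [e]
  calc |∑ i, ∑ j, x i * (y j * Q (Pi.single i 1) (Pi.single j 1))|
      ≤ ∑ i, ∑ j, |x i * (y j * Q (Pi.single i 1) (Pi.single j 1))| :=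
        (Finset.abs_sum_le_sum_abs _ _).trans
          (Finset.sum_le_sum fun i _ => Finset.abs_sum_le_sum_abs _ _)
    _ ≤ ∑ i, ∑ j, |Q (Pi.single i 1) (Pi.single j 1)| * ((∑ i, |x i|) * ∑ i, |y i|) := by
        refine Finset.sum_le_sum fun i _ => Finset.sum_le_sum fun j _ => ?_
        rw [abs_mul, abs_mul]
        have h1 : |x i| ≤ ∑ i, |x i| :=
          Finset.single_le_sum (f := fun i => |x i|) (fun _ _ => abs_nonneg _) (Finset.mem_univ i)
        have h2 : |y j| ≤ ∑ i, |y i| :=
          Finset.single_le_sum (f := fun i => |y i|) (fun _ _ => abs_nonneg _) (Finset.mem_univ j)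
        have h3 : 0 ≤ |Q (Pi.single i 1) (Pi.single j 1)| := abs_nonneg _
        have h4 : |x i| * |y j| ≤ (∑ i, |x i|) * ∑ i, |y i| :=
          mul_le_mul h1 h2 (abs_nonneg _) (Finset.sum_nonneg fun _ _ => abs_nonneg _)
        nlinarith [mul_le_mul_of_nonneg_left h4 h3]
    _ = _ := by
        simp only [Finset.sum_mul]

theorem gA3 : G_A3 := by
  intro d B R
  set Q : Bil d := (B.comp R).compl₂ R with hQ
  have hQv : ∀ x y, Q x y = B (R x) (R y) := fun x y => by simp [hQ]
  set A : ℝ := ∑ i, ∑ j, |Q (Pi.single i 1) (Pi.single j 1)| with hA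
  have hA0 : 0 ≤ A := Finset.sum_nonneg fun _ _ => Finset.sum_nonneg fun _ _ => abs_nonneg _
  refine ⟨4 * A * (d : ℝ) ^ 2, fun M W K Bad hK hBad hstep hmono hend => ?_⟩
  set T : ℝ := ∑ j ∈ Finset.range M, ∑ i, |W (j + 1) i - W j i| with hT
  -- each coordinate
  have hcoord : ∀ i, ∑ j ∈ Finset.range M, |W (j + 1) i - W j i| ≤ 2 * (K * Bad.card) := by
    intro i
    have h0 : ∑ j ∈ Finset.range M, (W (j + 1) i - W j i) = 0 := by
      rw [Finset.sum_range_sub (fun j => W j i), hend, sub_self]
    have h1 : ∀ j ∈ Finset.range M, |W (j + 1) i - W j i| ≤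
        (W (j + 1) i - W j i) + (if j ∈ Bad then 2 * K else 0) := by
      intro j hj
      have hjM := Finset.mem_range.mp hj
      by_cases hb : j ∈ Bad
      · have := hstep j hjM i
        simp only [hb, if_true]
        have h2 := abs_le.mp this
        rcases abs_cases (W (j + 1) i - W j i) with ⟨h3, _⟩ | ⟨h3, _⟩ <;> rw [h3] <;> linarith [h2.1, h2.2]
      · have := hmono j hjM hb i
        simp only [hb, if_false, add_zero]
        rw [abs_of_nonneg (by linarith)]
    calc ∑ j ∈ Finset.range M, |W (j + 1) i - W j i|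
        ≤ ∑ j ∈ Finset.range M, ((W (j + 1) i - W j i) + (if j ∈ Bad then 2 * K else 0)) :=
          Finset.sum_le_sum h1
      _ = ∑ j ∈ Finset.range M, (if j ∈ Bad then 2 * K else 0) := by
          rw [Finset.sum_add_distrib, h0, zero_add]
      _ = 2 * (K * Bad.card) := by
          rw [← Finset.sum_filter, Finset.sum_const, nsmul_eq_mul]
          have : (Finset.range M).filter (fun j => j ∈ Bad) = Bad := by
            ext j
            simp only [Finset.mem_filter]
            exact ⟨fun h => h.2, fun h => ⟨hBad h, h⟩⟩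
          rw [this]
          ring
  have hTle : T ≤ d * (2 * (K * Bad.card)) := by
    rw [hT, Finset.sum_comm]
    calc ∑ i, ∑ j ∈ Finset.range M, |W (j + 1) i - W j i|
        ≤ ∑ _i : Fin d, 2 * (K * Bad.card) := Finset.sum_le_sum fun i _ => hcoord i
      _ = d * (2 * (K * Bad.card)) := by simp
  have hT0 : 0 ≤ T := Finset.sum_nonneg fun _ _ => Finset.sum_nonneg fun _ _ => abs_nonneg _
  have hpos : ∀ j, j ≤ M → ∑ i, |(W j - W 0) i| ≤ T := by
    intro j hj
    have h1 : ∀ j, ∑ i, |(W j - W 0) i| ≤ ∑ k ∈ Finset.range j, ∑ i, |W (k + 1) i - W k i| := by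
      intro j
      induction j with
      | zero => simp
      | succ n ih =>
        rw [Finset.sum_range_succ]
        refine le_trans ?_ (add_le_add_left ih _)
        rw [← Finset.sum_add_distrib]
        refine Finset.sum_le_sum fun i _ => ?_
        have : (W (n + 1) - W 0) i = (W n - W 0) i + (W (n + 1) i - W n i) := by
          simp only [Pi.sub_apply]
          ring
        rw [this]
        exact abs_add_le _ _
    refine (h1 j).trans ?_
    exact Finset.sum_le_sum_of_subset_of_nonneg
      (Finset.range_subset_range.mpr hj) fun _ _ _ => Finset.sum_nonneg fun _ _ => abs_nonneg _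
  calc ∑ j ∈ Finset.range M, B (R (W j - W 0)) (R (W (j + 1) - W j))
      ≤ ∑ j ∈ Finset.range M, A * (T * ∑ i, |W (j + 1) i - W j i|) := by
        refine Finset.sum_le_sum fun j hj => ?_
        rw [← hQv]
        refine (le_abs_self _).trans ((bil_bound d Q _ _).trans ?_)
        refine mul_le_mul_of_nonneg_left ?_ hA0
        refine mul_le_mul_of_nonneg_right (hpos j (Finset.mem_range.mp hj).le) ?_
        exact Finset.sum_nonneg fun _ _ => abs_nonneg _
    _ = A * (T * T) := by
        rw [← Finset.mul_sum, ← Finset.mul_sum]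
    _ ≤ 4 * A * (d : ℝ) ^ 2 * (K * Bad.card) ^ 2 := by
        have h5 : T * T ≤ (d * (2 * (K * Bad.card))) * (d * (2 * (K * Bad.card))) :=
          mul_le_mul hTle hTle hT0 (hT0.trans hTle)
        calc A * (T * T) ≤ A * ((d * (2 * (K * Bad.card))) * (d * (2 * (K * Bad.card)))) :=
              mul_le_mul_of_nonneg_left h5 hA0
          _ = _ := by ring

end Pool.Agent.Helper26.HB
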