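import Pool.Agent.Helper26.HB.Asm
import Pool.Agent.Helper40.HB.S0
import Pool.Agent.Helper93.HB.S1
import Pool.Agent.Helper94.HB.S2
import Pool.Agent.Helper34.HB.S3
import Pool.Agent.Helper82.HB.ED
import Pool.Agent.Helper11.HB.PT
import Pool.Agent.Helper42.HB.PF
import Pool.Agent.Helper77.HB.SP
import Pool.Agent.Helper83.HB.CR
import Pool.Agent.Helper50.HB.A1
import Pool.Agent.Helper15.HB.A2
import Pool.Agent.Helper26.HB.A3
import Pool.Agent.Helper89.HB.LB
import Pool.Agent.Helper4.HB.JM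
import Pool.Agent.Helper56.HB.LM
import Pool.Agent.Helper90.HB.IV
import Pool.Agent.Helper16.HB.UN

/-! The final theorem of project HB. -/

set_option autoImplicit false

open Pool.Agent.Helper7.Horo

namespace Pool.Agent.Helper26.HB

theorem final (G : Type) [Group G] (H : Subgroup G) (hH : H.FiniteIndex)
    (hcl : ∀ x ∈ H, ∀ y ∈ H, ∀ z ∈ H, x * y * x⁻¹ * y⁻¹ * z = z * (x * y * x⁻¹ * y⁻¹))
    (hnva : ∀ A : Subgroup G, A.FiniteIndex → ∃ x ∈ A, ∃ y ∈ A, x * y ≠ y * x)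
    (S : Finset G) (h : Gen S) :
    ¬ (closure (Set.range (bb S)) \ Set.range (bb S)).Countable :=
  main Pool.Agent.Helper40.HB.gS0 Pool.Agent.Helper93.HB.gS1 Pool.Agent.Helper94.HB.gS2
    Pool.Agent.Helper34.HB.gS3 Pool.Agent.Helper82.HB.gED Pool.Agent.Helper11.HB.gPT
    Pool.Agent.Helper42.HB.gPF Pool.Agent.Helper77.HB.gSP Pool.Agent.Helper83.HB.gCR
    Pool.Agent.Helper50.HB.gA1 Pool.Agent.Helper15.HB.gA2 Pool.Agent.Helper26.HB.gA3
    Pool.Agent.Helper89.HB.gLB Pool.Agent.Helper4.HB.gJM Pool.Agent.Helper56.HB.gLM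
    Pool.Agent.Helper90.HB.gIV Pool.Agent.Helper16.HB.gUN G H hH hcl hnva S h

end Pool.Agent.Helper26.HB
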