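import Pool.Agent.Helper26.HB.Goals

/-! Assembly of project HB. -/

set_option autoImplicit false

open Pool.Agent.Helper7.Horo

open scoped commutatorElement

namespace Pool.Agent.Helper26.HB

lemma comm_mul_left {N : Type} [Group N] (h : Cl2 N) (x y z : N) :
    ⁅x * y, z⁆ = ⁅x, z⁆ * ⁅y, z⁆ := by
  have h1 : ⁅x * y, z⁆ = x * ⁅y, z⁆ * x⁻¹ * ⁅x, z⁆ := by
    simp only [commutatorElement_def]; group
  rw [h1, ← h y z x, mul_assoc ⁅y, z⁆, mul_inv_cancel, mul_one, h y z]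

lemma comm_mul_right {N : Type} [Group N] (h : Cl2 N) (x y z : N) :
    ⁅x, y * z⁆ = ⁅x, y⁆ * ⁅x, z⁆ := by
  have h1 : ⁅x, y * z⁆ = ⁅x, y⁆ * (y * ⁅x, z⁆ * y⁻¹) := by
    simp only [commutatorElement_def]; group
  rw [h1, ← h x z y, mul_assoc ⁅x, z⁆, mul_inv_cancel, mul_one]

lemma comm_mem {N : Type} [Group N] (x y : N) : ⁅x, y⁆ ∈ commutator N := by
  rw [commutator_def]
  exact Subgroup.commutator_mem_commutator (Subgroup.mem_top x) (Subgroup.mem_top y)

/-- the Heisenberg coordinates exist -/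
theorem exists_dat (h0 : G_S0) (h1 : G_S1) (h2 : G_S2) (h3 : G_S3) (N : Type) [Group N]
    (hfg : Group.FG N) (hc : Cl2 N) (hn : NVA N) :
    ∃ (d : ℕ) (π : N → E d) (B : Bil d) (ζ : N → ℝ), Dat N d π B ζ := by
  obtain ⟨lam, hlam, x0, y0, hxy⟩ := h1 N hc (h0 N hfg hc hn)
  obtain ⟨ζ, hζ⟩ := h2 N hc lam hlam
  have hb1 : ∀ x y z : N, lam ⁅x * y, z⁆ = lam ⁅x, z⁆ + lam ⁅y, z⁆ := fun x y z => by
    rw [comm_mul_left hc, hlam _ (comm_mem x z) _ (comm_mem y z)]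
  have hb2 : ∀ x y z : N, lam ⁅x, y * z⁆ = lam ⁅x, y⁆ + lam ⁅x, z⁆ := fun x y z => by
    rw [comm_mul_right hc, hlam _ (comm_mem x y) _ (comm_mem x z)]
  have hl1 : lam 1 = 0 := by
    have := hlam 1 (Subgroup.one_mem _) 1 (Subgroup.one_mem _)
    rw [mul_one] at this; linarith
  have hb3 : ∀ x : N, lam ⁅x, x⁆ = 0 := fun x => by
    rw [commutatorElement_self, hl1]
  obtain ⟨d, π, B, hπ, hB, hBe⟩ := h3 N hfg (fun x y => lam ⁅x, y⁆) hb1 hb2 hb3
  refine ⟨d, π, B, ζ, hπ, hB, fun x y => ?_, x0, y0, ?_⟩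
  · rw [hBe]; exact hζ x y
  · rw [hBe]; exact hxy

/-- the length of a path -/
lemma len_path {G : Type} [Group G] {S : Finset G} (h : Gen S) (p : ℕ → G) (j : ℕ)
    (hp : ∀ i < j, (p i)⁻¹ * p (i + 1) ∈ S) : len S ((p 0)⁻¹ * p j) ≤ j := by
  induction j with
  | zero => rw [inv_mul_cancel, len_one]
  | succ j ih =>
    have h1 := ih (fun i hi => hp i (by omega))
    have h2 : len S ((p j)⁻¹ * p (j + 1)) ≤ 1 := by
      have := len_le (S := S) (g := (p j)⁻¹ * p (j + 1)) (l := [(p j)⁻¹ * p (j + 1)])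
        (by simpa using hp j (by omega)) (by simp)
      simpa using this
    have h3 : (p 0)⁻¹ * p (j + 1) = ((p 0)⁻¹ * p j) * ((p j)⁻¹ * p (j + 1)) := by group
    rw [h3]
    exact (len_mul h _ _).trans (by omega)

lemma len_pow {G : Type} [Group G] {S : Finset G} (h : Gen S) (w : G) (i : ℕ) :
    len S (w ^ i) ≤ i * len S w := by
  induction i with
  | zero => rw [pow_zero, len_one]; omega
  | succ i ih =>
    rw [pow_succ]
    exact (len_mul h _ _).trans (by rw [add_mul, one_mul]; omega)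

/-- a direction of `PS` gives an element of `N` with short powers -/
lemma exists_loop {G : Type} [Group G] {S : Finset G} (h : Gen S) (N : Subgroup G) (d : ℕ)
    (π : N → E d) (u : E d) (hu : u ∈ PS S N d π) :
    ∃ (a : N) (ℓ : ℕ) (C : ℝ), 1 ≤ ℓ ∧ 0 ≤ C ∧ π a = (ℓ : ℝ) • u ∧
      ∀ j : ℕ, (len S ((a : G) ^ j) : ℝ) ≤ j * ℓ + C := by
  obtain ⟨p, j, n, hj, -, hp, hn, rfl⟩ := hu
  refine ⟨n, j, 2 * len S (p 0), hj, by positivity, ?_, fun i => ?_⟩
  · rw [smul_smul, mul_one_div_cancel (by positivity), one_smul]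
  · have h1 : (n : G) = p 0 * ((p 0)⁻¹ * p j) * (p 0)⁻¹ := by
      rw [hn]; group
    have h2 : (n : G) ^ i = p 0 * ((p 0)⁻¹ * p j) ^ i * (p 0)⁻¹ := by
      rw [h1, conj_pow]
    have h3 : len S ((n : G) ^ i) ≤ len S (p 0) + i * j + len S (p 0) := by
      rw [h2]
      refine (len_mul h _ _).trans ?_
      rw [len_inv h]
      refine Nat.add_le_add_right ((len_mul h _ _).trans ?_) _
      exact Nat.add_le_add_left ((len_pow h _ _).trans (Nat.mul_le_mul_left _ (len_path h p j hp))) _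
    have h4 : (len S ((n : G) ^ i) : ℝ) ≤ len S (p 0) + i * j + len S (p 0) := by exact_mod_cast h3
    linarith

/-- functions with one-sided bounds along edges -/
lemma lip_len {G : Type} [Group G] {S : Finset G} (h : Gen S) (f : G → ℝ)
    (hf : ∀ (g s : G), s ∈ S → f (g * s) ≤ f g + 1) (g : G) : f g ≤ f 1 + len S g := by
  obtain ⟨l, h1, h2, h3⟩ := exists_geod h g
  have key : ∀ (l : List G) (x : G), (∀ s ∈ l, s ∈ S) → f (x * l.prod) ≤ f x + l.length := by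
    intro l
    induction l with
    | nil => intro x _; simp
    | cons s l ih =>
      intro x hl
      have h4 := ih (x * s) (fun t ht => hl t (List.mem_cons_of_mem _ ht))
      have h5 := hf x s (hl s (List.mem_cons_self ..))
      rw [List.prod_cons, List.length_cons, ← mul_assoc]
      push_cast
      linarith
  have := key l 1 h2
  rw [h3, one_mul, h1] at this
  exact this

/-- a symmetric polytope edge with positive form -/
lemma exists_edge (hE : G_ED) (hPF : G_PF) (hSP : G_SP) (hPT : G_PT) {G : Type} [Group G]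
    (S : Finset G) (h : Gen S) (N : Subgroup G) [N.Normal] [N.FiniteIndex] (d : ℕ) (π : N → E d)
    (B : Bil d) (ζ : N → ℝ) (hD : Dat N d π B ζ) :
    ∃ u ∈ PS S N d π, ∃ v ∈ PS S N d π, ∃ φ : E d →ₗ[ℝ] ℝ, φ u = 1 ∧ φ v = 1 ∧ 0 < B u v ∧
      (∀ w ∈ PS S N d π, φ w ≤ 1) ∧
      ∀ w ∈ PS S N d π, φ w = 1 → ∃ s : ℝ, 0 ≤ s ∧ s ≤ 1 ∧ w = u + s • (v - u) := by
  obtain ⟨hfin, hsym⟩ := hPF G S h N d π hD.hom
  have hne : ∃ p ∈ PS S N d π, ∃ q ∈ PS S N d π, B p q ≠ 0 := by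
    by_contra hcon
    push Not at hcon
    have h1 : ∀ q ∈ PS S N d π, ∀ x, B (π x) q = 0 := fun q hq x =>
      hSP hPT G S h N d π hD.hom (B.flip q) (fun w hw => by
        rw [LinearMap.flip_apply]; exact hcon w hw q hq) x
    obtain ⟨x, y, hxy⟩ := hD.nz
    exact hxy (hSP hPT G S h N d π hD.hom (B (π x)) (fun w hw => h1 w hw x) y)
  obtain ⟨u, hu, v, hv, φ, h1, h2, h3, h4, h5⟩ := hE d (PS S N d π) B hfin hsym hD.alt hne
  rcases lt_or_gt_of_ne h3 with h6 | h6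
  · have h7 : B v u = - B u v := by
      have := hD.alt (u + v)
      simp only [map_add, LinearMap.add_apply, hD.alt] at this
      linarith
    refine ⟨v, hv, u, hu, φ, h2, h1, by rw [h7]; linarith, h4, fun w hw hw1 => ?_⟩
    obtain ⟨s, hs0, hs1, rfl⟩ := h5 w hw hw1
    refine ⟨1 - s, by linarith, by linarith, ?_⟩
    module
  · exact ⟨u, hu, v, hv, φ, h1, h2, h6, h4, h5⟩

theorem main (hS0 : G_S0) (hS1 : G_S1) (hS2 : G_S2) (hS3 : G_S3) (hED : G_ED) (hPT : G_PT)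
    (hPF : G_PF) (hSP : G_SP) (hCR : G_CR) (hA1 : G_A1) (hA2 : G_A2) (hA3 : G_A3) (hLB : G_LB)
    (hJM : G_JM) (hLM : G_LM) (hIV : G_IV) (hUN : G_UN)
    (G : Type) [Group G] (H : Subgroup G) (hH : H.FiniteIndex)
    (hcl : ∀ x ∈ H, ∀ y ∈ H, ∀ z ∈ H, ⁅x, y⁆ * z = z * ⁅x, y⁆)
    (hnva : ∀ A : Subgroup G, A.FiniteIndex → ∃ x ∈ A, ∃ y ∈ A, x * y ≠ y * x)
    (S : Finset G) (h : Gen S) :
    ¬ (closure (Set.range (bb S)) \ Set.range (bb S)).Countable := by
  classical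
  set N : Subgroup G := H.normalCore with hN
  have hNH : N ≤ H := H.normalCore_le
  haveI : N.FiniteIndex := by rw [hN]; infer_instance
  haveI : Group.FG G := by
    rw [Group.fg_iff]
    exact ⟨(S : Set G), h.gen, S.finite_toSet⟩
  have hNfg : Group.FG N := inferInstance
  have hc : Cl2 N := by
    intro x y z
    apply Subtype.ext
    have := hcl x (hNH x.2) y (hNH y.2) z (hNH z.2)
    simpa [commutatorElement_def] using this
  have hn : NVA N := by
    intro A hA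
    have hfi : (A.map N.subtype).FiniteIndex := by
      constructor
      rw [Subgroup.index_map_subtype]
      exact mul_ne_zero hA.index_ne_zero (Subgroup.FiniteIndex.index_ne_zero)
    obtain ⟨x, hx, y, hy, hxy⟩ := hnva _ hfi
    obtain ⟨x', hx', rfl⟩ := Subgroup.mem_map.1 hx
    obtain ⟨y', hy', rfl⟩ := Subgroup.mem_map.1 hy
    exact ⟨x', hx', y', hy', fun hc => hxy (by rw [← map_mul, hc, map_mul])⟩
  obtain ⟨d, π, B, ζ, hD⟩ := exists_dat hS0 hS1 hS2 hS3 N hNfg hc hn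
  obtain ⟨u, hu, v, hv, φ, hφu, hφv, hB, hφ, hface⟩ :=
    exists_edge hED hPF hSP hPT S h N d π B ζ hD
  obtain ⟨a, ℓa, Ca, hℓa, hCa, hπa, hla⟩ := exists_loop h N d π u hu
  obtain ⟨b, ℓb, Cb, hℓb, hCb, hπb, hlb⟩ := exists_loop h N d π v hv
  obtain ⟨f, U, V, W, K, δ, hcr⟩ :=
    hCR hPT G S h N d π B u v φ hD.hom hD.alt hφu hφv hB.ne' hφ hface
  have hla' : ∀ j : ℕ, (len S ((a : G) ^ j) : ℝ) ≤ j * ℓa + (Ca + Cb) := fun j => by
    have := hla j; linarith
  have hlb' : ∀ j : ℕ, (len S ((b : G) ^ j) : ℝ) ≤ j * ℓb + (Ca + Cb) := fun j => by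
    have := hlb j; linarith
  obtain ⟨ε, hε, R0, hR0⟩ := hLB hA1 hA2 hA3 G S h N d π B ζ u v φ f U V W K δ a b ℓa ℓb (Ca + Cb)
    hD hφu hφv hB hcr hℓa hℓb hπa hπb hla' hlb'
  have hab : ⁅(a : G), (b : G)⁆ = ((⁅a, b⁆ : N) : G) := by
    simp [commutatorElement_def]
  have hca : ⁅(a : G), (b : G)⁆ * (a : G) = a * ⁅(a : G), (b : G)⁆ := by
    rw [hab]; exact congrArg Subtype.val (hc a b a)
  have hcb : ⁅(a : G), (b : G)⁆ * (b : G) = b * ⁅(a : G), (b : G)⁆ := by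
    rw [hab]; exact congrArg Subtype.val (hc a b b)
  obtain ⟨C', hC', hJ⟩ := hJM G S h (a : G) (b : G) ℓa (Ca + Cb) hca hcb hla'
  have hπ1 : π 1 = 0 := by
    have := hD.hom 1 1
    rw [mul_one] at this
    simpa using this
  have hpow : ∀ (x : N) (m : ℕ), π (x ^ m) = (m : ℝ) • π x := by
    intro x m
    induction m with
    | zero => simp [hπ1]
    | succ m ih => rw [pow_succ, hD.hom, ih]; push_cast; module
  have hlow : ∀ m n : ℕ, (m : ℝ) * ℓa + n * ℓb ≤ len S ((a : G) ^ m * (b : G) ^ n) := by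
    intro m n
    have h1 := lip_len h f hcr.lip ((a : G) ^ m * (b : G) ^ n)
    have h2 := hcr.f_eq (a ^ m * b ^ n) 1
    rw [mul_one] at h2
    have h3 : ((a ^ m * b ^ n : N) : G) = (a : G) ^ m * (b : G) ^ n := by simp
    rw [h3] at h2
    have h4 : φ (π (a ^ m * b ^ n)) = (m : ℝ) * ℓa + n * ℓb := by
      rw [hD.hom, hpow, hpow, hπa, hπb]
      simp only [map_add, map_smul, smul_eq_mul, hφu, hφv, mul_one]
    rw [h2, h4] at h1
    linarith
  obtain ⟨X, C1, hX1, hX2, hX3, hX4, hX5⟩ := hLM G S h (a : G) (b : G) ℓa ℓb (Ca + Cb) C' ε R0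
    (by linarith) hC' hℓb hla' hlb' hlow hJ hR0
  exact hUN hIV G (closure (Set.range (bb S)) \ Set.range (bb S)) (b : G) ℓb ε C1 R0 X hε
    hX1 hX2 hX3 hX4 hX5

end Pool.Agent.Helper26.HB
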